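import Pool.Agent.X247.Mis.Paths
import Pool.Agent.X247.Gr

/-!
# The algorithm for the misère domination game on paths and cycles
-/

namespace Pool.Agent.X247.Mis

section iso

variable {V V' : Type*} [Finite V] [Finite V'] {G : SimpleGraph V} {H : SimpleGraph V'}

theorem dominates_iso (φ : G ≃g H) (v u : V) : Dominates H (φ v) (φ u) ↔ Dominates G v u := by
  unfold Dominates
  rw [φ.map_adj_iff, φ.injective.eq_iff]

theorem legal_iso (φ : G ≃g H) (C : List V) (v : V) :
    Legal H (C.map φ) (φ v) ↔ Legal G C v := by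
  unfold Legal
  constructor
  · rintro ⟨u, h1, h2⟩
    obtain ⟨u, rfl⟩ := φ.surjective u
    exact ⟨u, (dominates_iso φ _ _).1 h1, fun c hc hc2 =>
      h2 (φ c) (List.mem_map_of_mem hc) ((dominates_iso φ _ _).2 hc2)⟩
  · rintro ⟨u, h1, h2⟩
    refine ⟨φ u, (dominates_iso φ _ _).2 h1, fun c hc hc2 => ?_⟩
    obtain ⟨c, hc', rfl⟩ := List.mem_map.1 hc
    exact h2 c hc' ((dominates_iso φ _ _).1 hc2)

theorem wins_iso_aux (φ : G ≃g H) : ∀ (N : ℕ) (C : List V), undom G C = N →
    (Wins G C ↔ Wins H (C.map φ)) := by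
  intro N
  induction N using Nat.strong_induction_on with
  | _ N ih =>
    intro C hN
    have hrec : ∀ v, Legal G C v → (Wins G (v :: C) ↔ Wins H (φ v :: C.map φ)) := by
      intro v hv
      have := ih _ (by rw [← hN]; exact undom_lt hv) (v :: C) rfl
      rwa [List.map_cons] at this
    rw [Wins, Wins]
    constructor
    · rintro (h | ⟨v, hv, hw⟩)
      · left
        intro v hv
        obtain ⟨v, rfl⟩ := φ.surjective v
        exact h v ((legal_iso φ C v).1 hv)
      · exact Or.inr ⟨φ v, (legal_iso φ C v).2 hv, fun hc => hw ((hrec v hv).2 hc)⟩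
    · rintro (h | ⟨v, hv, hw⟩)
      · exact Or.inl fun v hv => h (φ v) ((legal_iso φ C v).2 hv)
      · obtain ⟨v, rfl⟩ := φ.surjective v
        have hv' := (legal_iso φ C v).1 hv
        exact Or.inr ⟨v, hv', fun hc => hw ((hrec v hv').1 hc)⟩

theorem wins_iso (φ : G ≃g H) : Wins G [] ↔ Wins H [] := wins_iso_aux φ _ [] rfl

end iso

end Pool.Agent.X247.Mis

namespace Pool.Agent.NPC.X247Mis

open Pool.Agent.H633R2 Pool.Agent.X247.Mis Pool.Agent.NPC.X247

/-- the vertex `i` has at most one neighbour -/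
def isEndB (M : List (List Bool)) (i : ℕ) : Bool :=
  (List.range M.length).all fun j => (List.range M.length).all fun k =>
    !edg M i j || (!edg M i k || decide (j = k))

/-- some vertex has at most one neighbour -/
def hasEndB (M : List (List Bool)) : Bool := (List.range M.length).any fun i => isEndB M i

/-- the answer for paths -/
def pathB (N : ℕ) : Bool :=
  !(!N.testBit 0 && N.testBit 1 || (decide (N = 1) || decide (N = 5)))

/-- the answer for cycles -/
def cycB (N : ℕ) : Bool :=
  decide (N = 4) || (decide (N = 8) || (decide (13 ≤ N) && (N.testBit 0 && !N.testBit 1)))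

/-- the algorithm -/
def algB (M : List (List Bool)) : Bool := bif hasEndB M then pathB M.length else cycB M.length

theorem poly_hasEndB : Poly hasEndB := by
  refine Poly.any (p := fun M i => isEndB M i) (Poly.range_length Poly.id) ?_
  refine Poly.all (p := fun (a : List (List Bool) × ℕ) j =>
    (List.range a.1.length).all fun k =>
      !edg a.1 a.2 j || (!edg a.1 a.2 k || decide (j = k)))
    (Poly.range_length (Poly.fst Poly.id)) ?_
  refine Poly.all (p := fun (b : (List (List Bool) × ℕ) × ℕ) k =>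
      !edg b.1.1 b.1.2 b.2 || (!edg b.1.1 b.1.2 k || decide (b.2 = k)))
    (Poly.range_length (Poly.fst (Poly.fst Poly.id))) ?_
  have hM : Poly (fun c : ((List (List Bool) × ℕ) × ℕ) × ℕ => c.1.1.1) :=
    Poly.fst (Poly.fst (Poly.fst Poly.id))
  have hi : Poly (fun c : ((List (List Bool) × ℕ) × ℕ) × ℕ => c.1.1.2) :=
    Poly.snd (Poly.fst (Poly.fst Poly.id))
  have hj : Poly (fun c : ((List (List Bool) × ℕ) × ℕ) × ℕ => c.1.2) :=
    Poly.snd (Poly.fst Poly.id)
  have hk : Poly (fun c : ((List (List Bool) × ℕ) × ℕ) × ℕ => c.2) := Poly.snd Poly.id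
  exact Poly.or (Poly.not (poly_edg hM hi hj)) (Poly.or (Poly.not (poly_edg hM hi hk))
    (Poly.decide_eq hj hk))

theorem poly_algB : Poly algB := by
  have hN : Poly (fun M : List (List Bool) => M.length) := Poly.length Poly.id
  have h0 : Poly (fun M : List (List Bool) => M.length.testBit 0) :=
    poly_testBit hN (Poly.const 0)
  have h1 : Poly (fun M : List (List Bool) => M.length.testBit 1) :=
    poly_testBit hN (Poly.const 1)
  refine Poly.cond poly_hasEndB ?_ ?_
  · exact Poly.not (Poly.or (Poly.and (Poly.not h0) h1) (Poly.or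
      (Poly.decide_eq hN (Poly.const 1)) (Poly.decide_eq hN (Poly.const 5))))
  · exact Poly.or (Poly.decide_eq hN (Poly.const 4)) (Poly.or
      (Poly.decide_eq hN (Poly.const 8)) (Poly.and (Poly.decide_le (Poly.const 13) hN)
        (Poly.and h0 (Poly.not h1))))

theorem pathB_iff (N : ℕ) : pathB N = true ↔ ¬ (N % 4 = 2 ∨ N = 1 ∨ N = 5) := by
  have h0 : N.testBit 0 = decide (N % 2 = 1) := by
    rw [Nat.testBit_zero]
  have h1 : N.testBit 1 = decide (N / 2 % 2 = 1) := by
    rw [Nat.testBit_eq_decide_div_mod_eq]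
  unfold pathB
  rw [h0, h1]
  simp only [Bool.not_eq_true', Bool.or_eq_false_iff, Bool.and_eq_false_iff, Bool.not_eq_false',
    decide_eq_true_eq, decide_eq_false_iff_not]
  omega

theorem cycB_iff (N : ℕ) : cycB N = true ↔ N = 4 ∨ N = 8 ∨ (13 ≤ N ∧ N % 4 = 1) := by
  have h0 : N.testBit 0 = decide (N % 2 = 1) := by
    rw [Nat.testBit_zero]
  have h1 : N.testBit 1 = decide (N / 2 % 2 = 1) := by
    rw [Nat.testBit_eq_decide_div_mod_eq]
  unfold cycB
  rw [h0, h1]
  simp only [Bool.or_eq_true, Bool.and_eq_true, Bool.not_eq_true',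
    decide_eq_true_eq, decide_eq_false_iff_not]
  omega

theorem hasEndB_iff (M : List (List Bool)) : hasEndB M = true ↔
    ∃ i : Fin M.length, ∀ j k, (graphOf M).Adj i j → (graphOf M).Adj i k → j = k := by
  unfold hasEndB isEndB
  simp only [List.any_eq_true, List.mem_range, List.all_eq_true, Bool.or_eq_true,
    Bool.not_eq_true', decide_eq_true_eq]
  constructor
  · rintro ⟨i, hi, h⟩
    refine ⟨⟨i, hi⟩, fun j k hj hk => ?_⟩
    rcases h j j.isLt k k.isLt with h1 | h1 | h1
    · rw [← edg_iff] at hj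
      rw [hj] at h1
      cases h1
    · rw [← edg_iff] at hk
      rw [hk] at h1
      cases h1
    · exact Fin.ext h1
  · rintro ⟨i, h⟩
    refine ⟨i, i.isLt, fun j hj k hk => ?_⟩
    by_cases h1 : edg M i j = true
    · by_cases h2 : edg M i k = true
      · right; right
        have := h ⟨j, hj⟩ ⟨k, hk⟩ ((edg_iff M i ⟨j, hj⟩).1 h1) ((edg_iff M i ⟨k, hk⟩).1 h2)
        rw [Fin.ext_iff] at this
        exact this
      · right; left
        simpa using h2
    · left
      simpa using h1

theorem hasEnd_path {M : List (List Bool)} {n : ℕ} (hn : 1 ≤ n)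
    (φ : graphOf M ≃g SimpleGraph.pathGraph n) : hasEndB M = true := by
  rw [hasEndB_iff]
  refine ⟨φ.symm ⟨0, by omega⟩, fun j k hj hk => ?_⟩
  have e : φ (φ.symm ⟨0, by omega⟩) = ⟨0, by omega⟩ := φ.apply_symm_apply _
  rw [← φ.map_adj_iff, e, SimpleGraph.pathGraph_adj] at hj hk
  apply φ.injective
  ext
  simp only at hj hk
  omega

theorem not_hasEnd_cycle {M : List (List Bool)} {n : ℕ} (hn : 3 ≤ n)
    (φ : graphOf M ≃g SimpleGraph.cycleGraph n) : ¬ hasEndB M = true := by
  rw [hasEndB_iff]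
  rintro ⟨i, hi⟩
  have key : ∀ a b : Fin n, (SimpleGraph.cycleGraph n).Adj (φ i) a →
      (SimpleGraph.cycleGraph n).Adj (φ i) b → a = b := by
    intro a b ha hb
    have := hi (φ.symm a) (φ.symm b) (by rw [← φ.map_adj_iff, φ.apply_symm_apply]; exact ha)
      (by rw [← φ.map_adj_iff, φ.apply_symm_apply]; exact hb)
    exact φ.symm.injective this
  have hv := (φ i).isLt
  by_cases h0 : (φ i).val = 0
  · have a1 : 1 < n := by omega
    have a2 : n - 1 < n := by omega
    have b1 : (SimpleGraph.cycleGraph n).Adj (φ i) ⟨1, a1⟩ :=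
      (cyc_adj hn).2 (Or.inl (by rw [h0]))
    have b2 : (SimpleGraph.cycleGraph n).Adj (φ i) ⟨n - 1, a2⟩ :=
      (cyc_adj hn).2 (Or.inr (Or.inr (Or.inl ⟨h0, rfl⟩)))
    have := Fin.mk.inj (key _ _ b1 b2)
    omega
  · by_cases h1 : (φ i).val = n - 1
    · have a1 : 0 < n := by omega
      have a2 : n - 2 < n := by omega
      have b1 : (SimpleGraph.cycleGraph n).Adj (φ i) ⟨0, a1⟩ :=
        (cyc_adj hn).2 (Or.inr (Or.inr (Or.inr ⟨rfl, h1⟩)))
      have b2 : (SimpleGraph.cycleGraph n).Adj (φ i) ⟨n - 2, a2⟩ :=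
        (cyc_adj hn).2 (Or.inr (Or.inl (by rw [h1]; simp only; omega)))
      have := Fin.mk.inj (key _ _ b1 b2)
      omega
    · have a1 : (φ i).val - 1 < n := by omega
      have a2 : (φ i).val + 1 < n := by omega
      have b1 : (SimpleGraph.cycleGraph n).Adj (φ i) ⟨(φ i).val - 1, a1⟩ :=
        (cyc_adj hn).2 (Or.inr (Or.inl (by simp only; omega)))
      have b2 : (SimpleGraph.cycleGraph n).Adj (φ i) ⟨(φ i).val + 1, a2⟩ :=
        (cyc_adj hn).2 (Or.inl rfl)
      have := Fin.mk.inj (key _ _ b1 b2)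
      omega

/-- the graph is a path or a cycle -/
def IsPathOrCycle {V : Type} (G : SimpleGraph V) : Prop :=
  (∃ n, 1 ≤ n ∧ Nonempty (G ≃g SimpleGraph.pathGraph n)) ∨
    (∃ n, 3 ≤ n ∧ Nonempty (G ≃g SimpleGraph.cycleGraph n))

theorem algB_iff {M : List (List Bool)} (h : IsPathOrCycle (graphOf M)) :
    algB M = true ↔ Wins (graphOf M) [] := by
  rcases h with ⟨n, hn, ⟨φ⟩⟩ | ⟨n, hn, ⟨φ⟩⟩
  · have hc : M.length = n := by
      have := Fintype.card_congr φ.toEquiv
      simpa using this
    rw [wins_iso φ, wins_path hn, algB, hasEnd_path hn φ, hc, ← pathB_iff]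
    rfl
  · have hc : M.length = n := by
      have := Fintype.card_congr φ.toEquiv
      simpa using this
    have h2 : hasEndB M = false := by simpa using not_hasEnd_cycle hn φ
    rw [wins_iso φ, wins_cycle hn, algB, h2, hc, ← cycB_iff]
    rfl

end Pool.Agent.NPC.X247Mis
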