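import Pool.Agent.X247.Mis.Sim

/-!
# The misère domination game on paths and cycles
-/

namespace Pool.Agent.X247.Mis

section game

variable {V : Type*} (G : SimpleGraph V)

/-- `u` lies in the closed neighbourhood of `v` -/
def Dominates (v u : V) : Prop := u = v ∨ G.Adj v u

/-- `v` is a legal move after the vertices in `C` have been chosen: it dominates a vertex which
has not been dominated yet -/
def Legal (C : List V) (v : V) : Prop := ∃ u, Dominates G v u ∧ ∀ c ∈ C, ¬ Dominates G c u

/-- the number of the vertices that are not dominated -/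
noncomputable def undom (C : List V) : ℕ := {u | ∀ c ∈ C, ¬ Dominates G c u}.ncard

variable {G}

theorem undom_lt [Finite V] {C : List V} {v : V} (h : Legal G C v) :
    undom G (v :: C) < undom G C := by
  obtain ⟨u, h1, h2⟩ := h
  refine Set.ncard_lt_ncard ?_ (Set.toFinite _)
  refine ⟨fun x hx c hc => hx c (List.mem_cons_of_mem _ hc), fun hs => ?_⟩
  exact hs h2 v (List.mem_cons_self ..) h1

variable (G)

/-- The player to move wins the misère domination game after the vertices in `C` have been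
chosen: there is no legal move (then the opponent has made the last move), or there is a legal
move after which the opponent, who is to move, does not win. -/
def Wins [Finite V] (C : List V) : Prop :=
  (∀ v, ¬ Legal G C v) ∨ ∃ v, ∃ _ : Legal G C v, ¬ Wins (v :: C)
termination_by undom G C
decreasing_by exact undom_lt ‹_›

end game

section bridge

variable {V : Type*} [DecidableEq V] {G : SimpleGraph V} [Fintype V] [DecidableRel G.Adj]

theorem mem_nb {v u : V} : u ∈ nb G v ↔ Dominates G v u := by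
  unfold nb Dominates
  simp

theorem wins_bridge : ∀ (N : ℕ) (C : List V) (D : Finset V), undom G C = N →
    (∀ u, u ∈ D ↔ ∃ c ∈ C, Dominates G c u) → (Wins G C ↔ WinsD G D) := by
  intro N
  induction N using Nat.strong_induction_on with
  | _ N ih =>
    intro C D hN hD
    have hleg : ∀ v, Legal G C v ↔ ¬ nb G v ⊆ D := by
      intro v
      rw [Finset.not_subset]
      unfold Legal
      constructor
      · rintro ⟨u, h1, h2⟩
        refine ⟨u, mem_nb.2 h1, fun hu => ?_⟩
        obtain ⟨c, hc, hc2⟩ := (hD u).1 hu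
        exact h2 c hc hc2
      · rintro ⟨u, h1, h2⟩
        exact ⟨u, mem_nb.1 h1, fun c hc hc2 => h2 ((hD u).2 ⟨c, hc, hc2⟩)⟩
    have hrec : ∀ v, Legal G C v → (Wins G (v :: C) ↔ WinsD G (D ∪ nb G v)) := by
      intro v hv
      refine ih _ (by rw [← hN]; exact undom_lt hv) _ _ rfl fun u => ?_
      rw [Finset.mem_union, hD, mem_nb]
      constructor
      · rintro (⟨c, hc, hc2⟩ | h)
        · exact ⟨c, List.mem_cons_of_mem _ hc, hc2⟩
        · exact ⟨v, List.mem_cons_self .., h⟩
      · rintro ⟨c, hc, hc2⟩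
        rcases List.mem_cons.1 hc with rfl | hc
        · exact Or.inr hc2
        · exact Or.inl ⟨c, hc, hc2⟩
    rw [Wins, WinsD]
    constructor
    · rintro (h | ⟨v, hv, hw⟩)
      · exact Or.inl fun v => not_not.1 fun hc => h v ((hleg v).2 hc)
      · exact Or.inr ⟨v, (hleg v).1 hv, fun hc => hw ((hrec v hv).2 hc)⟩
    · rintro (h | ⟨v, hv, hw⟩)
      · exact Or.inl fun v hc => (hleg v).1 hc (h v)
      · exact Or.inr ⟨v, (hleg v).2 hv, fun hc => hw ((hrec v ((hleg v).2 hv)).1 hc)⟩

theorem wins_nil : Wins G [] ↔ WinsD G ∅ :=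
  wins_bridge _ [] ∅ rfl fun u => by simp

end bridge

/-! ### Arithmetic -/

theorem pos_single (h : ℕ) : Pos {h} ↔ h = 1 ∨ h = 5 ∨ (10 ≤ h ∧ h % 4 = 2) := by
  have hS : S {h} = e h := by simp [S]
  have hD : Dom {h} ↔ e h + 2 + 2 * (h % 2) ≤ 2 * e h := by
    unfold Dom
    rw [hS]
    simp
  have hs : ({h} : Multiset ℕ).sum = h := by simp
  have h9 : 9 ∈ ({h} : Multiset ℕ) ↔ 9 = h := by simp
  unfold Pos
  rw [hS, hD, hs, h9]
  have := e_spec h
  constructor
  · rintro (⟨h1, h2⟩ | ⟨h1, h2, h3, h4⟩)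
    · omega
    · by_cases hc : e h + 2 + 2 * (h % 2) ≤ 2 * e h
      · have := h4.1 hc
        omega
      · have : ¬ e h % 2 = 1 := fun h5 => hc (h4.2 h5)
        omega
  · rintro (rfl | rfl | ⟨h1, h2⟩)
    · left; decide
    · left; decide
    · right
      refine ⟨by omega, by omega, by omega, by omega⟩

theorem S_pair (j b : ℕ) : S {j, b} = e j + e b := by simp [S]

theorem sum_pair (j b : ℕ) : ({j, b} : Multiset ℕ).sum = j + b := by simp

theorem dom_pair (j b : ℕ) : Dom {j, b} ↔ e j + e b + 2 + 2 * (j % 2) ≤ 2 * e j ∨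
    e j + e b + 2 + 2 * (b % 2) ≤ 2 * e b := by
  unfold Dom
  rw [S_pair]
  simp

theorem nine_pair (j b : ℕ) : 9 ∈ ({j, b} : Multiset ℕ) ↔ 9 = j ∨ 9 = b := by simp

theorem path_arith {n : ℕ} (hn : 1 ≤ n) :
    ((2 ≤ n ∧ Pos {n - 2}) ∨ ∃ j b, j + b + 3 = n ∧ Pos {j, b}) ↔
      ¬ (n % 4 = 2 ∨ n = 1 ∨ n = 5) := by
  have hev := ev
  constructor
  · rintro (⟨h1, h2⟩ | ⟨j, b, h1, h2⟩) hc
    · rw [pos_single] at h2
      omega
    · unfold Pos at h2
      rw [S_pair, sum_pair, nine_pair, dom_pair] at h2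
      have hj := e_spec j
      have hb := e_spec b
      rcases h2 with ⟨h3, h4⟩ | ⟨h3, h4, h5, h6⟩
      · have hj' := e_zero (h := j) (by omega)
        have hb' := e_zero (h := b) (by omega)
        omega
      · have hn5 : n = 5 := by omega
        by_cases h7 : (e j + e b) % 2 = 1
        · have := h6.2 h7
          omega
        · omega
  · intro hc
    have cases : n = 3 ∨ n = 4 ∨ n = 7 ∨ n = 8 ∨ n = 9 ∨ n = 11 ∨ n = 13 ∨
        (12 ≤ n ∧ n % 4 = 0) ∨ (15 ≤ n ∧ n % 2 = 1) := by omega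
    rcases cases with rfl | rfl | rfl | rfl | rfl | rfl | rfl | h | h
    · exact Or.inl ⟨by omega, (pos_single _).2 (by omega)⟩
    · exact Or.inr ⟨0, 1, rfl, Or.inl ⟨by rw [S_pair]; omega, by rw [sum_pair]⟩⟩
    · exact Or.inl ⟨by omega, (pos_single _).2 (by omega)⟩
    · exact Or.inr ⟨0, 5, rfl, Or.inl ⟨by rw [S_pair]; omega, by rw [sum_pair]⟩⟩
    · refine Or.inr ⟨3, 3, rfl, pos_nondom (by rw [S_pair]; omega) (by rw [S_pair]; omega)
        (by rw [sum_pair]) ?_ ?_⟩
      · rw [dom_pair]; omega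
      · rw [nine_pair]; omega
    · refine Or.inr ⟨2, 6, rfl, pos_nondom (by rw [S_pair]; omega) (by rw [S_pair]; omega)
        (by rw [sum_pair]) ?_ ?_⟩
      · rw [dom_pair]; omega
      · rw [nine_pair]; omega
    · refine Or.inr ⟨0, 10, rfl, pos_dom (by rw [S_pair]; omega) (by rw [sum_pair]) ?_⟩
      rw [dom_pair]; omega
    · exact Or.inl ⟨by omega, (pos_single _).2 (by omega)⟩
    · obtain ⟨c, rfl⟩ : ∃ c, n = c + c + 3 := ⟨(n - 3) / 2, by omega⟩
      have hc := e_spec c
      refine Or.inr ⟨c, c, rfl, pos_nondom (by rw [S_pair]; omega) (by rw [S_pair]; omega)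
        (by rw [sum_pair]; omega) ?_ ?_⟩
      · rw [dom_pair]; omega
      · rw [nine_pair, S_pair]; omega

end Pool.Agent.X247.Mis
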