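import Mathlib

/-!
# The octal game 0.337 in misère play

Heaps; a move removes one or two tokens from a heap, or three tokens, and in the last case the
rest may be divided into two heaps. We determine all positions in which the previous player wins
if the player who makes the last move loses.
-/

namespace Pool.Agent.X247.Mis

/-- the rank of a heap -/
def e (h : ℕ) : ℕ := if h < 2 then 0 else if h < 4 then 1 else h / 2 - 2

/-- the sum of the ranks -/
def S (X : Multiset ℕ) : ℕ := (X.map e).sum

/-- some heap dominates -/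
def Dom (X : Multiset ℕ) : Prop := ∃ h ∈ X, S X + 2 + 2 * (h % 2) ≤ 2 * e h

/-- the positions in which the previous player wins -/
def Pos (X : Multiset ℕ) : Prop :=
  (S X = 0 ∧ X.sum % 2 = 1) ∨
  (0 < S X ∧ X.sum % 2 = 0 ∧ ¬ (S X = 2 ∧ 9 ∈ X) ∧ (Dom X ↔ S X % 2 = 1))

/-- the moves -/
inductive Mv : Multiset ℕ → Multiset ℕ → Prop
  | one (h : ℕ) (R : Multiset ℕ) : Mv ((h + 1) ::ₘ R) (h ::ₘ R)
  | two (h : ℕ) (R : Multiset ℕ) : Mv ((h + 2) ::ₘ R) (h ::ₘ R)
  | three (a b : ℕ) (R : Multiset ℕ) : Mv ((a + b + 3) ::ₘ R) (a ::ₘ b ::ₘ R)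

@[simp] theorem S_cons (h : ℕ) (R : Multiset ℕ) : S (h ::ₘ R) = e h + S R := by
  unfold S; simp

theorem e_le_S {h : ℕ} {X : Multiset ℕ} (hX : h ∈ X) : e h ≤ S X := by
  obtain ⟨R, rfl⟩ := Multiset.exists_cons_of_mem hX
  rw [S_cons]; omega

theorem e_two (h : ℕ) : (e (h + 2) = e h + 1) ∨ (e (h + 2) = 0 ∧ e h = 1) := by
  unfold e; split_ifs <;> omega

theorem e_zero {h : ℕ} (H : e h = 0) : h = 0 ∨ h = 1 ∨ h = 4 ∨ h = 5 := by
  unfold e at H; split_ifs at H <;> omega

theorem e_spec (h : ℕ) : (h < 2 ∧ e h = 0) ∨ (2 ≤ h ∧ h < 4 ∧ e h = 1) ∨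
    (4 ≤ h ∧ e h = h / 2 - 2) := by
  unfold e; split_ifs <;> omega

/-- no move leads from a position of the set to a position of the set -/
theorem not_pos_of_mv {X Y : Multiset ℕ} (hX : Pos X) (h : Mv X Y) : ¬ Pos Y := by
  intro hY
  unfold Pos at hX hY
  cases h with
  | one h R =>
    simp only [S_cons, Multiset.sum_cons] at hX hY
    have h1 := e_spec h
    have h2 := e_spec (h + 1)
    rcases hX with ⟨a1, a2⟩ | ⟨a1, a2, a3, a4⟩
    · rcases hY with ⟨b1, b2⟩ | ⟨b1, b2, b3, b4⟩
      · omega
      · have hS : S (h ::ₘ R) = 1 := by rw [S_cons]; omega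
        have hD : Dom (h ::ₘ R) := b4.2 (by omega)
        obtain ⟨x, hx, hx2⟩ := hD
        have := e_le_S hx
        omega
    · rcases hY with ⟨b1, b2⟩ | ⟨b1, b2, b3, b4⟩
      · have hS : S ((h + 1) ::ₘ R) = 1 := by rw [S_cons]; omega
        have hD : Dom ((h + 1) ::ₘ R) := a4.2 (by omega)
        obtain ⟨x, hx, hx2⟩ := hD
        have := e_le_S hx
        omega
      · omega
  | two h R =>
    simp only [S_cons, Multiset.sum_cons] at hX hY
    have h1 := e_spec h
    have h2 := e_spec (h + 2)
    have h3 := e_two h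
    rcases hX with ⟨a1, a2⟩ | ⟨a1, a2, a3, a4⟩
    · rcases hY with ⟨b1, b2⟩ | ⟨b1, b2, b3, b4⟩ <;> omega
    · rcases hY with ⟨b1, b2⟩ | ⟨b1, b2, b3, b4⟩
      · omega
      · by_cases hD : Dom ((h + 2) ::ₘ R)
        · have c1 := a4.1 hD
          have c2 : ¬ Dom (h ::ₘ R) := fun hD' => by
            have := b4.1 hD'
            omega
          apply c2
          obtain ⟨x, hx, hx2⟩ := hD
          rw [S_cons] at hx2
          rcases Multiset.mem_cons.1 hx with rfl | hx'
          · refine ⟨h, Multiset.mem_cons_self _ _, ?_⟩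
            rw [S_cons]
            omega
          · refine ⟨x, Multiset.mem_cons_of_mem hx', ?_⟩
            rw [S_cons]
            omega
        · apply hD
          have c1 : (e (h + 2) + S R) % 2 ≠ 1 := fun hc => hD (a4.2 hc)
          have c2 : Dom (h ::ₘ R) := b4.2 (by omega)
          obtain ⟨x, hx, hx2⟩ := c2
          rw [S_cons] at hx2
          rcases Multiset.mem_cons.1 hx with rfl | hx'
          · refine ⟨x + 2, Multiset.mem_cons_self _ _, ?_⟩
            rw [S_cons]
            omega
          · refine ⟨x, Multiset.mem_cons_of_mem hx', ?_⟩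
            rw [S_cons]
            omega
  | three a b R =>
    simp only [S_cons, Multiset.sum_cons] at hX hY
    have ha := e_spec a
    have hb := e_spec b
    have hab := e_spec (a + b + 3)
    rcases hX with ⟨a1, a2⟩ | ⟨a1, a2, a3, a4⟩
    · rcases hY with ⟨b1, b2⟩ | ⟨b1, b2, b3, b4⟩
      · omega
      · have hS : S (a ::ₘ b ::ₘ R) = 1 := by rw [S_cons, S_cons]; omega
        have hD : Dom (a ::ₘ b ::ₘ R) := b4.2 (by omega)
        obtain ⟨x, hx, hx2⟩ := hD
        have := e_le_S hx
        omega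
    · rcases hY with ⟨b1, b2⟩ | ⟨b1, b2, b3, b4⟩
      · have e1 := e_zero (h := a) (by omega)
        have e2 := e_zero (h := b) (by omega)
        have hR : S R = 0 := by omega
        have key : ∀ x ∈ R, e x = 0 := fun x hx => by have := e_le_S hx; omega
        by_cases hD : Dom ((a + b + 3) ::ₘ R)
        · have c1 := a4.1 hD
          obtain ⟨x, hx, hx2⟩ := hD
          rw [S_cons] at hx2
          rcases Multiset.mem_cons.1 hx with rfl | hx'
          · omega
          · have := key x hx'
            omega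
        · have c1 : (e (a + b + 3) + S R) % 2 ≠ 1 := fun hc => hD (a4.2 hc)
          have c2 : ¬ (e (a + b + 3) + S R + 2 + 2 * ((a + b + 3) % 2) ≤ 2 * e (a + b + 3)) := by
            intro hc
            exact hD ⟨a + b + 3, Multiset.mem_cons_self _ _, by rw [S_cons]; exact hc⟩
          have c3 : ¬ (e (a + b + 3) + S R = 2 ∧ a + b + 3 = 9) := by
            rintro ⟨c4, c5⟩
            refine a3 ⟨c4, ?_⟩
            rw [c5]
            exact Multiset.mem_cons_self _ _
          omega
      · omega

end Pool.Agent.X247.Mis
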