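import Pool.Agent.X247.Mis.Heap

/-!
# From every other position there is a move into the set
-/

namespace Pool.Agent.X247.Mis

theorem ev : e 0 = 0 ∧ e 1 = 0 ∧ e 2 = 1 ∧ e 3 = 1 ∧ e 4 = 0 ∧ e 5 = 0 ∧ e 6 = 1 ∧ e 7 = 1 ∧
    e 8 = 2 ∧ e 9 = 2 ∧ e 10 = 3 ∧ e 11 = 3 ∧ e 12 = 4 ∧ e 13 = 4 := by decide

theorem pos_zero {Y : Multiset ℕ} (h1 : S Y = 0) (h2 : Y.sum % 2 = 1) : Pos Y := Or.inl ⟨h1, h2⟩

theorem pos_dom {Y : Multiset ℕ} (h1 : S Y % 2 = 1) (h2 : Y.sum % 2 = 0) (h3 : Dom Y) : Pos Y :=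
  Or.inr ⟨by omega, h2, by rintro ⟨h4, _⟩; omega, ⟨fun _ => h1, fun _ => h3⟩⟩

theorem pos_nondom {Y : Multiset ℕ} (h0 : 0 < S Y) (h1 : S Y % 2 = 0) (h2 : Y.sum % 2 = 0)
    (h3 : ¬ Dom Y) (h4 : ¬ (S Y = 2 ∧ 9 ∈ Y)) : Pos Y :=
  Or.inr ⟨h0, h2, h4, ⟨fun h => absurd h h3, fun h => by omega⟩⟩

theorem exists_max {X : Multiset ℕ} (h : 0 < S X) : ∃ x ∈ X, ∀ y ∈ X, e y ≤ e x := by
  have hne : X.toFinset.Nonempty := by
    rw [Finset.nonempty_iff_ne_empty]
    intro hc
    rw [Multiset.toFinset_eq_empty] at hc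
    subst hc
    simp [S] at h
  obtain ⟨x, hx, hx2⟩ := X.toFinset.exists_max_image e hne
  exact ⟨x, Multiset.mem_toFinset.1 hx, fun y hy => hx2 y (Multiset.mem_toFinset.2 hy)⟩

theorem exists_pos_elt {X : Multiset ℕ} (h : 0 < S X) : ∃ x ∈ X, 0 < e x := by
  by_contra hc
  push Not at hc
  have : S X = 0 := by
    unfold S
    refine Multiset.sum_eq_zero fun y hy => ?_
    obtain ⟨z, hz, rfl⟩ := Multiset.mem_map.1 hy
    have := hc z hz
    omega
  omega

theorem exists_odd {X : Multiset ℕ} (h : X.sum % 2 = 1) : ∃ x ∈ X, x % 2 = 1 := by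
  induction X using Multiset.induction_on with
  | empty => simp at h
  | cons a X ih =>
    rw [Multiset.sum_cons] at h
    by_cases ha : a % 2 = 1
    · exact ⟨a, Multiset.mem_cons_self _ _, ha⟩
    · obtain ⟨x, hx, hx2⟩ := ih (by omega)
      exact ⟨x, Multiset.mem_cons_of_mem hx, hx2⟩

theorem e_zero_of {R : Multiset ℕ} (h : S R = 0) {x : ℕ} (hx : x ∈ R) : e x = 0 := by
  have := e_le_S hx
  omega

theorem e_add_le {x : ℕ} {R : Multiset ℕ} {y : ℕ} (hy : y ∈ R) : e x + e y ≤ S (x ::ₘ R) := by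
  rw [S_cons]
  have := e_le_S hy
  omega

/-- positions with rank zero -/
theorem reply_zero {X : Multiset ℕ} (hS : S X = 0) (hs : X.sum % 2 = 0) (h0 : ∃ h ∈ X, h ≠ 0) :
    ∃ Y, Mv X Y ∧ Pos Y := by
  obtain ⟨h, hh, hne⟩ := h0
  obtain ⟨R, rfl⟩ := Multiset.exists_cons_of_mem hh
  rw [S_cons] at hS
  rw [Multiset.sum_cons] at hs
  rcases e_zero (h := h) (by omega) with rfl | rfl | rfl | rfl
  · exact absurd rfl hne
  · exact ⟨_, Mv.one 0 R, pos_zero (by rw [S_cons]; have := ev; omega)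
      (by rw [Multiset.sum_cons]; omega)⟩
  · exact ⟨_, Mv.three 0 1 R, pos_zero (by rw [S_cons, S_cons]; have := ev; omega)
      (by rw [Multiset.sum_cons, Multiset.sum_cons]; omega)⟩
  · exact ⟨_, Mv.one 4 R, pos_zero (by rw [S_cons]; have := ev; omega)
      (by rw [Multiset.sum_cons]; omega)⟩

/-- positions with an even number of tokens -/
theorem reply_even {X : Multiset ℕ} (hX : ¬ Pos X) (hS : 0 < S X) (hs : X.sum % 2 = 0) :
    ∃ Y, Mv X Y ∧ Pos Y := by
  by_cases hex : S X = 2 ∧ 9 ∈ X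
  · obtain ⟨h2, h9⟩ := hex
    obtain ⟨R, rfl⟩ := Multiset.exists_cons_of_mem h9
    rw [S_cons] at h2
    rw [Multiset.sum_cons] at hs
    exact ⟨_, Mv.three 1 5 R, pos_zero (by rw [S_cons, S_cons]; have := ev; omega)
      (by rw [Multiset.sum_cons, Multiset.sum_cons]; omega)⟩
  by_cases hD : Dom X
  · have hSe : S X % 2 = 0 := by
      by_contra hc
      exact hX (pos_dom (by omega) hs hD)
    obtain ⟨x, hx, hx2⟩ := hD
    obtain ⟨R, rfl⟩ := Multiset.exists_cons_of_mem hx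
    rw [S_cons] at hx2 hSe hS
    rw [Multiset.sum_cons] at hs
    have hex' := e_spec x
    by_cases hbig : e x + S R + 4 + 2 * (x % 2) ≤ 2 * e x
    · obtain ⟨h, rfl⟩ : ∃ h, x = h + 2 := ⟨x - 2, by omega⟩
      have h3 := e_two h
      refine ⟨_, Mv.two h R, pos_dom (by rw [S_cons]; omega) (by rw [Multiset.sum_cons]; omega)
        ⟨h, Multiset.mem_cons_self _ _, by rw [S_cons]; omega⟩⟩
    · by_cases hR : 0 < S R
      · obtain ⟨y, hy, hy2⟩ := exists_pos_elt hR
        obtain ⟨R', rfl⟩ := Multiset.exists_cons_of_mem hy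
        rw [S_cons] at hx2 hSe hS hbig
        rw [Multiset.sum_cons] at hs
        have hey := e_spec y
        obtain ⟨h, rfl⟩ : ∃ h, y = h + 2 := ⟨y - 2, by omega⟩
        have h3 := e_two h
        rw [Multiset.cons_swap]
        refine ⟨_, Mv.two h (x ::ₘ R'), pos_dom (by rw [S_cons, S_cons]; omega)
          (by rw [Multiset.sum_cons, Multiset.sum_cons]; omega)
          ⟨x, Multiset.mem_cons_of_mem (Multiset.mem_cons_self _ _), by
            rw [S_cons, S_cons]; omega⟩⟩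
      · have hx8 : x = 8 ∨ x = 13 := by omega
        rcases hx8 with rfl | rfl
        · exact ⟨_, Mv.three 0 5 R, pos_zero (by rw [S_cons, S_cons]; have := ev; omega)
            (by rw [Multiset.sum_cons, Multiset.sum_cons]; omega)⟩
        · exact ⟨_, Mv.three 5 5 R, pos_zero (by rw [S_cons, S_cons]; have := ev; omega)
            (by rw [Multiset.sum_cons, Multiset.sum_cons]; omega)⟩
  · have hSo : S X % 2 = 1 := by
      by_contra hc
      exact hX (pos_nondom hS (by omega) hs hD hex)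
    obtain ⟨x, hx, hmax⟩ := exists_max hS
    obtain ⟨R, rfl⟩ := Multiset.exists_cons_of_mem hx
    have hxD : ¬ (S (x ::ₘ R) + 2 + 2 * (x % 2) ≤ 2 * e x) := fun hc => hD ⟨x, hx, hc⟩
    rw [S_cons] at hSo hS hxD
    rw [Multiset.sum_cons] at hs
    have hex' := e_spec x
    by_cases hR : 0 < S R
    · have hx1 : 0 < e x := by
        obtain ⟨y, hy, hy2⟩ := exists_pos_elt hR
        exact lt_of_lt_of_le hy2 (hmax y (Multiset.mem_cons_of_mem hy))
      obtain ⟨h, rfl⟩ : ∃ h, x = h + 2 := ⟨x - 2, by omega⟩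
      have h3 := e_two h
      refine ⟨_, Mv.two h R, pos_nondom (by rw [S_cons]; omega) (by rw [S_cons]; omega)
        (by rw [Multiset.sum_cons]; omega) ?_ ?_⟩
      · rintro ⟨y, hy, hy2⟩
        rw [S_cons] at hy2
        rcases Multiset.mem_cons.1 hy with rfl | hy'
        · omega
        · have h4 := hmax y (Multiset.mem_cons_of_mem hy')
          have h5 := e_le_S hy'
          omega
      · rintro ⟨h6, h7⟩
        rw [S_cons] at h6
        rcases Multiset.mem_cons.1 h7 with h8 | h8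
        · subst h8
          have := ev
          omega
        · have h9 := e_le_S h8
          have h10 := hmax 9 (Multiset.mem_cons_of_mem h8)
          have h11 := ev
          omega
    · have hx8 : x = 2 ∨ x = 3 ∨ x = 6 ∨ x = 7 ∨ x = 11 := by omega
      rcases hx8 with rfl | rfl | rfl | rfl | rfl
      · exact ⟨_, Mv.one 1 R, pos_zero (by rw [S_cons]; have := ev; omega)
          (by rw [Multiset.sum_cons]; omega)⟩
      · exact ⟨_, Mv.three 0 0 R, pos_zero (by rw [S_cons, S_cons]; have := ev; omega)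
          (by rw [Multiset.sum_cons, Multiset.sum_cons]; omega)⟩
      · exact ⟨_, Mv.one 5 R, pos_zero (by rw [S_cons]; have := ev; omega)
          (by rw [Multiset.sum_cons]; omega)⟩
      · exact ⟨_, Mv.three 0 4 R, pos_zero (by rw [S_cons, S_cons]; have := ev; omega)
          (by rw [Multiset.sum_cons, Multiset.sum_cons]; omega)⟩
      · exact ⟨_, Mv.three 4 4 R, pos_zero (by rw [S_cons, S_cons]; have := ev; omega)
          (by rw [Multiset.sum_cons, Multiset.sum_cons]; omega)⟩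

end Pool.Agent.X247.Mis
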