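import Pool.Agent.X247.Mis.Heap2

/-!
# Positions with an odd number of tokens
-/

namespace Pool.Agent.X247.Mis

theorem e_odd_one {x : ℕ} (h : x % 2 = 1) : e (x - 1) = e x := by
  have h1 := e_spec x
  have h2 := e_spec (x - 1)
  omega

theorem e_odd_three {x : ℕ} (h : x % 2 = 1) (h0 : 0 < e x) : e (x - 3) + 1 = e x := by
  have h1 := e_spec x
  have h2 := e_spec (x - 3)
  omega

theorem e_even_one {x : ℕ} (h : x % 2 = 0) (h0 : 0 < e x) : e (x - 1) + 1 = e x := by
  have h1 := e_spec x
  have h2 := e_spec (x - 1)
  omega

theorem two_le_of_e {x : ℕ} (h : 0 < e x) : 2 ≤ x := by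
  have h1 := e_spec x
  omega

theorem mv_one {x : ℕ} (h : 1 ≤ x) (R : Multiset ℕ) : Mv (x ::ₘ R) ((x - 1) ::ₘ R) := by
  obtain ⟨y, rfl⟩ : ∃ y, x = y + 1 := ⟨x - 1, by omega⟩
  exact Mv.one y R

theorem mv_three {x : ℕ} (h : 3 ≤ x) (R : Multiset ℕ) : Mv (x ::ₘ R) (0 ::ₘ (x - 3) ::ₘ R) := by
  obtain ⟨y, rfl⟩ : ∃ y, x = 0 + y + 3 := ⟨x - 3, by omega⟩
  have : 0 + y + 3 - 3 = y := by omega
  rw [this]
  exact Mv.three 0 y R

theorem S_three {x : ℕ} (R : Multiset ℕ) (hx : x % 2 = 1) (h0 : 0 < e x) :
    S (0 ::ₘ (x - 3) ::ₘ R) + 1 = e x + S R := by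
  rw [S_cons, S_cons]
  have h1 := e_odd_three hx h0
  have h2 := ev
  omega

theorem sum_three {x : ℕ} (R : Multiset ℕ) (h : 3 ≤ x) :
    (0 ::ₘ (x - 3) ::ₘ R).sum + 3 = x + R.sum := by
  rw [Multiset.sum_cons, Multiset.sum_cons]
  omega

theorem reply_odd_odd {X : Multiset ℕ} (hS : 0 < S X) (hSo : S X % 2 = 1) (hs : X.sum % 2 = 1) :
    ∃ Y, Mv X Y ∧ Pos Y := by
  obtain ⟨x, hx, hmax⟩ := exists_max hS
  obtain ⟨z, hz, hz0⟩ := exists_pos_elt hS
  have hx0 : 0 < e x := lt_of_lt_of_le hz0 (hmax z hz)
  have hx2 := two_le_of_e hx0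
  obtain ⟨R, rfl⟩ := Multiset.exists_cons_of_mem hx
  rw [S_cons] at hS hSo
  rw [Multiset.sum_cons] at hs
  have hev := ev
  have hex' := e_spec x
  by_cases hxo : x % 2 = 1
  · by_cases hD : Dom ((x - 1) ::ₘ R)
    · refine ⟨_, mv_one (by omega) R, pos_dom ?_ ?_ hD⟩
      · rw [S_cons, e_odd_one hxo]; omega
      · rw [Multiset.sum_cons]; omega
    · have hxD : ¬ (e x + S R + 2 ≤ 2 * e x) := by
        intro hc
        refine hD ⟨x - 1, Multiset.mem_cons_self _ _, ?_⟩
        rw [S_cons, e_odd_one hxo]
        omega
      by_cases hR : 0 < S R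
      · have h1 := S_three R hxo hx0
        have h2 := sum_three R (x := x) (by omega)
        refine ⟨_, mv_three (by omega) R, pos_nondom (by omega) (by omega) (by omega) ?_ ?_⟩
        · rintro ⟨y, hy, hy2⟩
          rcases Multiset.mem_cons.1 hy with rfl | hy'
          · omega
          rcases Multiset.mem_cons.1 hy' with rfl | hy''
          · have h3 := e_odd_three hxo hx0
            omega
          · have h4 := hmax y (Multiset.mem_cons_of_mem hy'')
            have h5 := e_le_S hy''
            omega
        · rintro ⟨h6, h7⟩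
          rcases Multiset.mem_cons.1 h7 with h8 | h8
          · omega
          rcases Multiset.mem_cons.1 h8 with h9 | h9
          · omega
          · have h10 := e_le_S h9
            have h11 := hmax 9 (Multiset.mem_cons_of_mem h9)
            omega
      · have hx8 : x = 3 ∨ x = 7 := by omega
        rcases hx8 with rfl | rfl
        · exact ⟨_, Mv.two 1 R, pos_zero (by rw [S_cons]; omega)
            (by rw [Multiset.sum_cons]; omega)⟩
        · exact ⟨_, Mv.two 5 R, pos_zero (by rw [S_cons]; omega)
            (by rw [Multiset.sum_cons]; omega)⟩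
  · obtain ⟨g, hg, hgo⟩ := exists_odd (X := x ::ₘ R) (by rw [Multiset.sum_cons]; omega)
    have hgR : g ∈ R := by
      rcases Multiset.mem_cons.1 hg with rfl | h
      · omega
      · exact h
    obtain ⟨R', hR'⟩ := Multiset.exists_cons_of_mem hgR
    have hge := e_odd_one hgo
    by_cases hD : Dom ((g - 1) ::ₘ x ::ₘ R')
    · refine ⟨(g - 1) ::ₘ x ::ₘ R', ?_, pos_dom ?_ ?_ hD⟩
      · rw [hR', Multiset.cons_swap]
        exact mv_one (by omega) _
      · rw [S_cons, S_cons, hge]
        rw [hR', S_cons] at hSo
        omega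
      · rw [Multiset.sum_cons, Multiset.sum_cons]
        rw [hR', Multiset.sum_cons] at hs
        omega
    · have hSR : S R = e g + S R' := by rw [hR', S_cons]
      have hxD : ¬ (e x + S R + 2 ≤ 2 * e x) := by
        intro hc
        refine hD ⟨x, Multiset.mem_cons_of_mem (Multiset.mem_cons_self _ _), ?_⟩
        rw [S_cons, S_cons, hge]
        omega
      by_cases hR : 0 < S R
      · have h1 := e_even_one (x := x) (by omega) hx0
        refine ⟨_, mv_one (by omega) R, pos_nondom (by rw [S_cons]; omega) (by rw [S_cons]; omega)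
          (by rw [Multiset.sum_cons]; omega) ?_ ?_⟩
        · rintro ⟨y, hy, hy2⟩
          rw [S_cons] at hy2
          rcases Multiset.mem_cons.1 hy with rfl | hy'
          · omega
          · have h4 := hmax y (Multiset.mem_cons_of_mem hy')
            have h5 := e_le_S hy'
            omega
        · rintro ⟨h6, h7⟩
          rw [S_cons] at h6
          rcases Multiset.mem_cons.1 h7 with h8 | h8
          · rw [← h8] at h6 h1
            omega
          · have h10 := e_le_S h8
            have h11 := hmax 9 (Multiset.mem_cons_of_mem h8)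
            omega
      · have hx8 : x = 2 ∨ x = 6 := by omega
        rcases hx8 with rfl | rfl
        · exact ⟨_, Mv.two 0 R, pos_zero (by rw [S_cons]; omega)
            (by rw [Multiset.sum_cons]; omega)⟩
        · exact ⟨_, Mv.two 4 R, pos_zero (by rw [S_cons]; omega)
            (by rw [Multiset.sum_cons]; omega)⟩

theorem reply_odd_even {X : Multiset ℕ} (hS : 0 < S X) (hSe : S X % 2 = 0)
    (hs : X.sum % 2 = 1) : ∃ Y, Mv X Y ∧ Pos Y := by
  have hev := ev
  by_cases h9 : S X = 2 ∧ 9 ∈ X
  · obtain ⟨h2, h9⟩ := h9
    obtain ⟨R, rfl⟩ := Multiset.exists_cons_of_mem h9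
    rw [S_cons] at h2
    rw [Multiset.sum_cons] at hs
    refine ⟨_, Mv.three 3 3 R, pos_nondom (by rw [S_cons, S_cons]; omega)
      (by rw [S_cons, S_cons]; omega) (by rw [Multiset.sum_cons, Multiset.sum_cons]; omega)
      ?_ ?_⟩
    · rintro ⟨y, hy, hy2⟩
      rw [S_cons, S_cons] at hy2
      rcases Multiset.mem_cons.1 hy with rfl | hy'
      · omega
      rcases Multiset.mem_cons.1 hy' with rfl | hy''
      · omega
      · have h5 := e_le_S hy''
        omega
    · rintro ⟨h6, h7⟩
      rcases Multiset.mem_cons.1 h7 with h8 | h8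
      · omega
      rcases Multiset.mem_cons.1 h8 with h8 | h8
      · omega
      · have h10 := e_le_S h8
        omega
  obtain ⟨g, hg, hgo⟩ := exists_odd hs
  obtain ⟨R, rfl⟩ := Multiset.exists_cons_of_mem hg
  have hge := e_odd_one hgo
  rw [S_cons] at hS hSe
  rw [Multiset.sum_cons] at hs
  by_cases hD : Dom ((g - 1) ::ₘ R)
  swap
  · refine ⟨_, mv_one (by omega) R, pos_nondom (by rw [S_cons]; omega) (by rw [S_cons]; omega)
      (by rw [Multiset.sum_cons]; omega) hD ?_⟩
    rintro ⟨h6, h7⟩
    rcases Multiset.mem_cons.1 h7 with h8 | h8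
    · omega
    · exact h9 ⟨by rw [S_cons] at h6 ⊢; omega, Multiset.mem_cons_of_mem h8⟩
  obtain ⟨y, hy, hy2⟩ := hD
  rw [S_cons, hge] at hy2
  rcases Multiset.mem_cons.1 hy with rfl | hyR
  · rw [hge] at hy2
    have hg0 : 0 < e g := by omega
    have hg2 := e_spec g
    by_cases hbig : e g + S R + 4 ≤ 2 * e g
    · have h1 := S_three R hgo hg0
      have h2 := sum_three R (x := g) (by omega)
      have h3 := e_odd_three hgo hg0
      refine ⟨_, mv_three (by omega) R, pos_dom (by omega) (by omega)
        ⟨g - 3, Multiset.mem_cons_of_mem (Multiset.mem_cons_self _ _), ?_⟩⟩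
      omega
    · have heq : e g = S R + 2 := by omega
      by_cases hR : 0 < S R
      · obtain ⟨m, rfl⟩ : ∃ m, g = 1 + m + 3 := ⟨g - 4, by omega⟩
        have h4 := e_spec m
        have h5 : e m + 2 = e (1 + m + 3) := by omega
        refine ⟨_, Mv.three 1 m R, pos_nondom (by rw [S_cons, S_cons]; omega)
          (by rw [S_cons, S_cons]; omega)
          (by rw [Multiset.sum_cons, Multiset.sum_cons]; omega) ?_ ?_⟩
        · rintro ⟨y, hy, hy2⟩
          rw [S_cons, S_cons] at hy2
          rcases Multiset.mem_cons.1 hy with rfl | hy'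
          · omega
          rcases Multiset.mem_cons.1 hy' with rfl | hy''
          · omega
          · have h5 := e_le_S hy''
            omega
        · rintro ⟨h6, h7⟩
          rw [S_cons, S_cons] at h6
          rcases Multiset.mem_cons.1 h7 with h8 | h8
          · omega
          rcases Multiset.mem_cons.1 h8 with h8 | h8
          · rw [← h8] at h5 h6
            omega
          · have h10 := e_le_S h8
            omega
      · exfalso
        have : g = 9 := by omega
        subst this
        exact h9 ⟨by rw [S_cons]; omega, Multiset.mem_cons_self _ _⟩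
  · obtain ⟨R', rfl⟩ := Multiset.exists_cons_of_mem hyR
    rw [S_cons] at hS hSe hy2
    rw [Multiset.sum_cons] at hs
    have hys := e_spec y
    by_cases hg0 : 0 < e g
    · have h1 := S_three (y ::ₘ R') hgo hg0
      have c1 := S_cons y R'
      have hg2 := e_spec g
      have h2 := sum_three (y ::ₘ R') (x := g) (by omega)
      have c2 := Multiset.sum_cons y R'
      exact ⟨_, mv_three (by omega) _, pos_dom (by omega) (by omega)
        ⟨y, Multiset.mem_cons_of_mem (Multiset.mem_cons_of_mem (Multiset.mem_cons_self _ _)),
          by omega⟩⟩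
    by_cases hR' : 0 < S R'
    · obtain ⟨z, hz, hz0⟩ := exists_pos_elt hR'
      obtain ⟨R'', rfl⟩ := Multiset.exists_cons_of_mem hz
      rw [S_cons] at hS hSe hy2
      rw [Multiset.sum_cons] at hs
      have hz2 := e_spec z
      have hsw : g ::ₘ y ::ₘ z ::ₘ R'' = z ::ₘ g ::ₘ y ::ₘ R'' := by
        rw [Multiset.cons_swap y z, Multiset.cons_swap g z]
      rw [hsw]
      by_cases hzo : z % 2 = 1
      · have h1 := S_three (g ::ₘ y ::ₘ R'') hzo hz0
        have c1 := S_cons g (y ::ₘ R'')
        have c1' := S_cons y R''
        have h2 := sum_three (g ::ₘ y ::ₘ R'') (x := z) (by omega)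
        have c2 := Multiset.sum_cons g (y ::ₘ R'')
        have c2' := Multiset.sum_cons y R''
        exact ⟨_, mv_three (by omega) _, pos_dom (by omega) (by omega)
          ⟨y, by simp, by omega⟩⟩
      · have h1 := e_even_one (x := z) (by omega) hz0
        refine ⟨_, mv_one (by omega) _, pos_dom (by rw [S_cons, S_cons, S_cons]; omega)
          (by rw [Multiset.sum_cons, Multiset.sum_cons, Multiset.sum_cons]; omega)
          ⟨y, by simp, by rw [S_cons, S_cons, S_cons]; omega⟩⟩
    · have hsw : g ::ₘ y ::ₘ R' = y ::ₘ g ::ₘ R' := Multiset.cons_swap _ _ _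
      rw [hsw]
      by_cases hyo : y % 2 = 1
      · have hy0 : 0 < e y := by omega
        have h1 := S_three (g ::ₘ R') hyo hy0
        have c1 := S_cons g R'
        have h2 := sum_three (g ::ₘ R') (x := y) (by omega)
        have c2 := Multiset.sum_cons g R'
        have h3 := e_odd_three hyo hy0
        exact ⟨_, mv_three (by omega) _, pos_dom (by omega) (by omega)
          ⟨y - 3, by simp, by omega⟩⟩
      · by_cases hy6 : 6 ≤ e y
        · have h1 := e_even_one (x := y) (by omega) (by omega)
          refine ⟨_, mv_one (by omega) _, pos_dom (by rw [S_cons, S_cons]; omega)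
            (by rw [Multiset.sum_cons, Multiset.sum_cons]; omega)
            ⟨y - 1, by simp, by rw [S_cons, S_cons]; omega⟩⟩
        · have hy8 : y = 8 ∨ y = 12 := by omega
          have hgz := e_zero (h := g) (by omega)
          have hno : ∀ z ∈ R', e z = 0 := fun z hz => by have := e_le_S hz; omega
          rcases hy8 with rfl | rfl
          · refine ⟨_, Mv.three 2 3 _, pos_nondom (by rw [S_cons, S_cons, S_cons]; omega)
              (by rw [S_cons, S_cons, S_cons]; omega)
              (by rw [Multiset.sum_cons, Multiset.sum_cons, Multiset.sum_cons]; omega) ?_ ?_⟩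
            · rintro ⟨z, hz, hz2⟩
              rw [S_cons, S_cons, S_cons] at hz2
              simp only [Multiset.mem_cons] at hz
              rcases hz with rfl | rfl | rfl | hz
              · omega
              · omega
              · omega
              · have := hno z hz
                omega
            · rintro ⟨_, h7⟩
              simp only [Multiset.mem_cons] at h7
              rcases h7 with h8 | h8 | h8 | h8
              · omega
              · omega
              · omega
              · have := hno 9 h8
                omega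
          · refine ⟨_, Mv.three 3 6 _, pos_nondom (by rw [S_cons, S_cons, S_cons]; omega)
              (by rw [S_cons, S_cons, S_cons]; omega)
              (by rw [Multiset.sum_cons, Multiset.sum_cons, Multiset.sum_cons]; omega) ?_ ?_⟩
            · rintro ⟨z, hz, hz2⟩
              rw [S_cons, S_cons, S_cons] at hz2
              simp only [Multiset.mem_cons] at hz
              rcases hz with rfl | rfl | rfl | hz
              · omega
              · omega
              · omega
              · have := hno z hz
                omega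
            · rintro ⟨_, h7⟩
              simp only [Multiset.mem_cons] at h7
              rcases h7 with h8 | h8 | h8 | h8
              · omega
              · omega
              · omega
              · have := hno 9 h8
                omega

/-- from a position that is not in the set, and not finished, there is a move into the set -/
theorem exists_mv_pos {X : Multiset ℕ} (hX : ¬ Pos X) (h0 : ∃ h ∈ X, h ≠ 0) :
    ∃ Y, Mv X Y ∧ Pos Y := by
  rcases Nat.eq_zero_or_pos (S X) with hS | hS
  · refine reply_zero hS ?_ h0
    by_contra hc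
    exact hX (pos_zero hS (by omega))
  · rcases Nat.mod_two_eq_zero_or_one X.sum with hs | hs
    · exact reply_even hX hS hs
    · rcases Nat.mod_two_eq_zero_or_one (S X) with h | h
      · exact reply_odd_even hS h hs
      · exact reply_odd_odd hS h hs

/-- positions of the set are not finished -/
theorem ne_zero_of_pos {X : Multiset ℕ} (hX : Pos X) : ∃ h ∈ X, h ≠ 0 := by
  rcases hX with ⟨_, h⟩ | ⟨h, _⟩
  · obtain ⟨x, hx, hx2⟩ := exists_odd h
    exact ⟨x, hx, by omega⟩
  · obtain ⟨x, hx, hx2⟩ := exists_pos_elt h
    exact ⟨x, hx, by have := two_le_of_e hx2; omega⟩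

end Pool.Agent.X247.Mis
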