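import Pool.Agent.X247.Mis.Heap3

/-!
# The misère domination game and heaps
-/

namespace Pool.Agent.X247.Mis

section

variable {V : Type*} [DecidableEq V] (G : SimpleGraph V)

variable [Fintype V] [DecidableRel G.Adj]

/-- the closed neighbourhood -/
def nb (v : V) : Finset V := insert v (G.neighborFinset v)

/-- The player to move wins the misère game, if the vertices in `D` are dominated. -/
def WinsD (D : Finset V) : Prop :=
  (∀ v, nb G v ⊆ D) ∨ ∃ v, ∃ _ : ¬ nb G v ⊆ D, ¬ WinsD (D ∪ nb G v)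
termination_by (Finset.univ \ D).card
decreasing_by
  rename_i h
  refine Finset.card_lt_card ?_
  rw [Finset.ssubset_iff_subset_ne]
  refine ⟨fun x hx => ?_, fun heq => h fun x hx => ?_⟩
  · simp only [Finset.mem_sdiff, Finset.mem_univ, true_and, Finset.mem_union, not_or] at hx ⊢
    exact hx.1
  · by_contra hc
    have : x ∈ Finset.univ \ D := by simp [hc]
    rw [← heq] at this
    simp only [Finset.mem_sdiff, Finset.mem_univ, true_and, Finset.mem_union, not_or] at this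
    exact this.2 hx

end

/-- the lengths of the intervals -/
def lens (W : List (ℤ × ℕ)) : Multiset ℕ := (W.map Prod.snd : List ℕ)

/-- the union of the intervals -/
def InU (W : List (ℤ × ℕ)) (y : ℤ) : Prop := ∃ I ∈ W, I.1 ≤ y ∧ y < I.1 + I.2

theorem lens_append (W1 W2 : List (ℤ × ℕ)) : lens (W1 ++ W2) = lens W1 + lens W2 := by
  unfold lens
  rw [List.map_append]
  rfl

theorem lens_cons (I : ℤ × ℕ) (W : List (ℤ × ℕ)) : lens (I :: W) = I.2 ::ₘ lens W := rfl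

theorem lens_mid (W1 W2 : List (ℤ × ℕ)) (I : ℤ × ℕ) :
    lens (W1 ++ I :: W2) = I.2 ::ₘ lens (W1 ++ W2) := by
  rw [lens_append, lens_cons, lens_append]
  exact Multiset.add_cons _ _ _

theorem lens_mid1 (W1 W2 : List (ℤ × ℕ)) (I : ℤ × ℕ) :
    lens (W1 ++ [I] ++ W2) = I.2 ::ₘ lens (W1 ++ W2) := by
  rw [List.append_assoc]
  exact lens_mid W1 W2 I

theorem lens_mid2 (W1 W2 : List (ℤ × ℕ)) (I J : ℤ × ℕ) :
    lens (W1 ++ [I, J] ++ W2) = I.2 ::ₘ J.2 ::ₘ lens (W1 ++ W2) := by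
  rw [List.append_assoc]
  change lens (W1 ++ I :: (J :: W2)) = _
  rw [lens_mid, lens_mid]

variable {V : Type*} [DecidableEq V] (G : SimpleGraph V) [Fintype V] [DecidableRel G.Adj]

/-- The vertices which are not dominated correspond to the union of the intervals. -/
structure Core (g : ℤ → V) (lo hi : ℤ) (D : Finset V) (W : List (ℤ × ℕ)) : Prop where
  und : ∀ v, v ∉ D ↔ ∃ y, InU W y ∧ g y = v
  adj : ∀ x y, lo ≤ x → x ≤ hi → InU W y → (g y ∈ nb G (g x) ↔ x - 1 ≤ y ∧ y ≤ x + 1)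
  cov : ∀ v y, InU W y → g y ∈ nb G v → ∃ x, lo ≤ x ∧ x ≤ hi ∧ g x = v
  srt : W.Pairwise fun (I J : ℤ × ℕ) => I.1 + I.2 + 3 ≤ J.1
  bd : ∀ I ∈ W, lo ≤ I.1 ∧ I.1 + I.2 ≤ hi + 1

/-- every interval has a dominated neighbour -/
def Fl (lo hi : ℤ) (W : List (ℤ × ℕ)) : Prop := ∀ I ∈ W, lo < I.1 ∨ I.1 + I.2 ≤ hi

variable {G}

theorem Core.update {g : ℤ → V} {lo hi : ℤ} {D : Finset V} {W1 W2 P : List (ℤ × ℕ)}
    {I : ℤ × ℕ} (h : Core G g lo hi D (W1 ++ I :: W2)) {x : ℤ} (h1 : lo ≤ x) (h2 : x ≤ hi)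
    (h3 : I.1 - 1 ≤ x) (h4 : x ≤ I.1 + I.2)
    (hP1 : ∀ J ∈ P, I.1 ≤ J.1 ∧ J.1 + J.2 ≤ I.1 + I.2)
    (hP2 : P.Pairwise fun (I J : ℤ × ℕ) => I.1 + I.2 + 3 ≤ J.1)
    (hP3 : ∀ y, InU P y ↔ (I.1 ≤ y ∧ y < I.1 + I.2) ∧ ¬ (x - 1 ≤ y ∧ y ≤ x + 1)) :
    Core G g lo hi (D ∪ nb G (g x)) (W1 ++ P ++ W2) := by
  have hs := h.srt
  rw [List.pairwise_append] at hs
  obtain ⟨s1, s2, s3⟩ := hs
  rw [List.pairwise_cons] at s2
  obtain ⟨s4, s5⟩ := s2
  have hU : ∀ y, InU (W1 ++ P ++ W2) y ↔ InU (W1 ++ I :: W2) y ∧ ¬ (x - 1 ≤ y ∧ y ≤ x + 1) := by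
    intro y
    constructor
    · rintro ⟨J, hJ, hJ2⟩
      rw [List.mem_append, List.mem_append] at hJ
      rcases hJ with (hJ | hJ) | hJ
      · have := s3 J hJ I (List.mem_cons_self ..)
        exact ⟨⟨J, by simp [hJ], hJ2⟩, by omega⟩
      · have := (hP3 y).1 ⟨J, hJ, hJ2⟩
        exact ⟨⟨I, by simp, this.1⟩, this.2⟩
      · have := s4 J hJ
        exact ⟨⟨J, by simp [hJ], hJ2⟩, by omega⟩
    · rintro ⟨⟨J, hJ, hJ2⟩, hy⟩
      rw [List.mem_append, List.mem_cons] at hJ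
      rcases hJ with hJ | rfl | hJ
      · exact ⟨J, by simp [hJ], hJ2⟩
      · obtain ⟨J', hJ', hJ2'⟩ := (hP3 y).2 ⟨hJ2, hy⟩
        exact ⟨J', by simp [hJ'], hJ2'⟩
      · exact ⟨J, by simp [hJ], hJ2⟩
  constructor
  · intro v
    rw [Finset.notMem_union, h.und v]
    constructor
    · rintro ⟨⟨y, hy, rfl⟩, hv⟩
      exact ⟨y, (hU y).2 ⟨hy, fun hc => hv ((h.adj x y h1 h2 hy).2 hc)⟩, rfl⟩
    · rintro ⟨y, hy, rfl⟩
      obtain ⟨a1, a2⟩ := (hU y).1 hy
      exact ⟨⟨y, a1, rfl⟩, fun hc => a2 ((h.adj x y h1 h2 a1).1 hc)⟩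
  · intro x' y h1' h2' hy
    exact h.adj x' y h1' h2' ((hU y).1 hy).1
  · intro v y hy hv
    exact h.cov v y ((hU y).1 hy).1 hv
  · rw [List.append_assoc, List.pairwise_append]
    refine ⟨s1, ?_, ?_⟩
    · rw [List.pairwise_append]
      refine ⟨hP2, s5, fun J hJ K hK => ?_⟩
      have c1 := hP1 J hJ
      have c2 := s4 K hK
      omega
    · intro J hJ K hK
      rcases List.mem_append.1 hK with hK | hK
      · have c1 := hP1 K hK
        have c2 := s3 J hJ I (List.mem_cons_self ..)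
        omega
      · exact s3 J hJ K (List.mem_cons_of_mem _ hK)
  · intro J hJ
    rw [List.mem_append, List.mem_append] at hJ
    rcases hJ with (hJ | hJ) | hJ
    · exact h.bd J (by simp [hJ])
    · have c1 := hP1 J hJ
      have c2 := h.bd I (by simp)
      omega
    · exact h.bd J (by simp [hJ])

theorem Fl.update {lo hi : ℤ} {W1 W2 P : List (ℤ × ℕ)} {I : ℤ × ℕ}
    (h : Fl lo hi (W1 ++ I :: W2)) (hP : Fl lo hi P) : Fl lo hi (W1 ++ P ++ W2) := by
  intro J hJ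
  rw [List.mem_append, List.mem_append] at hJ
  rcases hJ with (hJ | hJ) | hJ
  · exact h J (by simp [hJ])
  · exact hP J hJ
  · exact h J (by simp [hJ])

/-- pieces after a move -/
theorem pieces {a : ℤ} {m : ℕ} {lo hi x : ℤ} (hm : 0 < m) (h1 : lo ≤ x) (h2 : x ≤ hi)
    (h3 : a - 1 ≤ x) (h4 : x ≤ a + m) (h5 : lo ≤ a) (h6 : a + m ≤ hi + 1) :
    ∃ P : List (ℤ × ℕ), (∀ J ∈ P, a ≤ J.1 ∧ J.1 + J.2 ≤ a + m) ∧
      (P.Pairwise fun (I J : ℤ × ℕ) => I.1 + I.2 + 3 ≤ J.1) ∧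
      (∀ y, InU P y ↔ (a ≤ y ∧ y < a + m) ∧ ¬ (x - 1 ≤ y ∧ y ≤ x + 1)) ∧ Fl lo hi P ∧
      ((∃ p, P = [(p, m - 1)] ∧ (x = a - 1 ∨ x = a + m ∨ m = 1)) ∨
        (∃ p, P = [(p, m - 2)] ∧ 2 ≤ m ∧ (x = a ∨ x = a + m - 1)) ∨
        (∃ p q, ∃ j b : ℕ, P = [(p, j), (q, b)] ∧ j + b + 3 = m ∧ x = a + j + 1)) := by
  have key1 : ∀ (p : ℤ) (k : ℕ) (y : ℤ), InU [(p, k)] y ↔ p ≤ y ∧ y < p + k := by
    intro p k y
    simp [InU]
  have key2 : ∀ (p q : ℤ) (k l : ℕ) (y : ℤ), InU [(p, k), (q, l)] y ↔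
      (p ≤ y ∧ y < p + k) ∨ (q ≤ y ∧ y < q + l) := by
    intro p q k l y
    simp [InU]
  rcases (by omega : x = a - 1 ∨ x = a + m ∨ (m = 1 ∧ x = a) ∨ (2 ≤ m ∧ x = a) ∨
    (2 ≤ m ∧ x = a + m - 1) ∨ (a < x ∧ x < a + m - 1)) with h | h | h | h | h | h
  · refine ⟨[(a + 1, m - 1)], ?_, by simp, ?_, ?_, Or.inl ⟨_, rfl, Or.inl h⟩⟩
    · intro J hJ
      rw [List.mem_singleton] at hJ
      subst hJ
      simp only
      omega
    · intro y
      rw [key1]
      omega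
    · intro J hJ
      rw [List.mem_singleton] at hJ
      subst hJ
      simp only
      omega
  · refine ⟨[(a, m - 1)], ?_, by simp, ?_, ?_, Or.inl ⟨_, rfl, Or.inr (Or.inl h)⟩⟩
    · intro J hJ
      rw [List.mem_singleton] at hJ
      subst hJ
      simp only
      omega
    · intro y
      rw [key1]
      omega
    · intro J hJ
      rw [List.mem_singleton] at hJ
      subst hJ
      simp only
      omega
  · refine ⟨[(a, m - 1)], ?_, by simp, ?_, ?_, Or.inl ⟨_, rfl, Or.inr (Or.inr h.1)⟩⟩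
    · intro J hJ
      rw [List.mem_singleton] at hJ
      subst hJ
      simp only
      omega
    · intro y
      rw [key1]
      omega
    · intro J hJ
      rw [List.mem_singleton] at hJ
      subst hJ
      simp only
      omega
  · refine ⟨[(a + 2, m - 2)], ?_, by simp, ?_, ?_, Or.inr (Or.inl ⟨_, rfl, h.1, Or.inl h.2⟩)⟩
    · intro J hJ
      rw [List.mem_singleton] at hJ
      subst hJ
      simp only
      omega
    · intro y
      rw [key1]
      omega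
    · intro J hJ
      rw [List.mem_singleton] at hJ
      subst hJ
      simp only
      omega
  · refine ⟨[(a, m - 2)], ?_, by simp, ?_, ?_, Or.inr (Or.inl ⟨_, rfl, h.1, Or.inr h.2⟩)⟩
    · intro J hJ
      rw [List.mem_singleton] at hJ
      subst hJ
      simp only
      omega
    · intro y
      rw [key1]
      omega
    · intro J hJ
      rw [List.mem_singleton] at hJ
      subst hJ
      simp only
      omega
  · obtain ⟨j, hj⟩ : ∃ j : ℕ, x = a + j + 1 := ⟨(x - a - 1).toNat, by omega⟩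
    obtain ⟨b, hb⟩ : ∃ b : ℕ, j + b + 3 = m := ⟨m - j - 3, by omega⟩
    refine ⟨[(a, j), (a + j + 3, b)], ?_, by simp, ?_, ?_,
      Or.inr (Or.inr ⟨_, _, j, b, rfl, hb, hj⟩)⟩
    · intro J hJ
      simp only [List.mem_cons, List.not_mem_nil, or_false] at hJ
      rcases hJ with rfl | rfl
      · simp only
        omega
      · simp only
        omega
    · intro y
      rw [key2]
      omega
    · intro J hJ
      simp only [List.mem_cons, List.not_mem_nil, or_false] at hJ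
      rcases hJ with rfl | rfl
      · simp only
        omega
      · simp only
        omega

end Pool.Agent.X247.Mis
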