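import Pool.Agent.X247.Mis.Game

/-!
# The misère domination game on paths and cycles
-/

namespace Pool.Agent.X247.Mis

section path

variable {n : ℕ}

/-- the embedding of the path -/
def gp (hn : 1 ≤ n) (x : ℤ) : Fin n := ⟨min x.toNat (n - 1), by omega⟩

variable [DecidableRel (SimpleGraph.pathGraph n).Adj]

theorem mem_nb_path {u v : Fin n} : u ∈ nb (SimpleGraph.pathGraph n) v ↔
    u.val = v.val ∨ v.val + 1 = u.val ∨ u.val + 1 = v.val := by
  rw [mem_nb, Dominates, SimpleGraph.pathGraph_adj, Fin.ext_iff]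

theorem core_path (hn : 1 ≤ n) :
    Core (SimpleGraph.pathGraph n) (gp hn) 0 (n - 1) ∅ [(0, n)] := by
  have hU : ∀ y, InU [((0 : ℤ), n)] y ↔ 0 ≤ y ∧ y < n := by
    intro y; simp [InU]
  constructor
  · intro v
    simp only [Finset.notMem_empty, not_false_eq_true, true_iff]
    refine ⟨v.val, (hU _).2 ⟨by omega, by have := v.isLt; omega⟩, ?_⟩
    ext
    simp only [gp]
    have := v.isLt
    omega
  · intro x y h1 h2 h3
    rw [hU] at h3
    rw [mem_nb_path]
    simp only [gp]
    omega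
  · intro v y _ _
    refine ⟨v.val, by omega, by have := v.isLt; omega, ?_⟩
    ext
    simp only [gp]
    have := v.isLt
    omega
  · simp
  · intro I hI
    rw [List.mem_singleton] at hI
    subst hI
    simp

theorem winsD_path (hn : 1 ≤ n) : WinsD (SimpleGraph.pathGraph n) ∅ ↔
    ((2 ≤ n ∧ Pos {n - 2}) ∨ ∃ j b, j + b + 3 = n ∧ Pos {j, b}) := by
  have hne : ∀ v, ¬ nb (SimpleGraph.pathGraph n) v ⊆ (∅ : Finset (Fin n)) := by
    intro v hv
    have := hv (mem_nb_self (G := SimpleGraph.pathGraph n) v)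
    simp at this
  have key : ∀ x : ℤ, 0 ≤ x → x ≤ (n : ℤ) - 1 → ∃ P : List (ℤ × ℕ),
      (WinsD (SimpleGraph.pathGraph n) (∅ ∪ nb (SimpleGraph.pathGraph n) (gp hn x)) ↔
        ¬ Pos (lens P)) ∧
      ((∃ p, P = [(p, n - 1)] ∧ (x = (0 : ℤ) - 1 ∨ x = 0 + (n : ℤ) ∨ n = 1)) ∨
        (∃ p, P = [(p, n - 2)] ∧ 2 ≤ n ∧ (x = (0 : ℤ) ∨ x = 0 + (n : ℤ) - 1)) ∨
        (∃ p q, ∃ j b : ℕ, P = [(p, j), (q, b)] ∧ j + b + 3 = n ∧ x = (0 : ℤ) + j + 1)) := by
    intro x h1 h2
    obtain ⟨P, p1, p2, p3, p4, p5⟩ := pieces (a := 0) (m := n) (lo := 0) (hi := (n : ℤ) - 1)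
      (x := x) (by omega) h1 h2 (by omega) (by omega) (by omega) (by omega)
    refine ⟨P, ?_, p5⟩
    have hc := Core.update (W1 := []) (W2 := []) (I := ((0 : ℤ), n)) (P := P)
      (core_path hn) h1 h2 (by simp only; omega) (by simp only; omega) p1 p2 p3
    have hl : ([] ++ P ++ [] : List (ℤ × ℕ)) = P := by simp
    rw [hl] at hc
    exact wins_iff _ rfl hc p4
  have hg : ∀ v : Fin n, gp hn (v.val : ℤ) = v := by
    intro v
    ext
    simp only [gp]
    have := v.isLt
    omega
  rw [WinsD]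
  constructor
  · rintro (h | ⟨v, _, hw⟩)
    · exact absurd (h ⟨0, by omega⟩) (hne _)
    · obtain ⟨P, hP, hP2⟩ := key v.val (by omega) (by have := v.isLt; omega)
      rw [hg] at hP
      rw [hP, not_not] at hw
      rcases hP2 with ⟨p, rfl, h1⟩ | ⟨p, rfl, h1, h2⟩ | ⟨p, q, j, b, rfl, h1, h2⟩
      · have h3 : n = 1 := by
          have := v.isLt
          omega
        subst h3
        exfalso
        have hw' : Pos {0} := hw
        rw [pos_single] at hw'
        omega
      · exact Or.inl ⟨h1, hw⟩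
      · exact Or.inr ⟨j, b, h1, hw⟩
  · rintro (⟨h1, h2⟩ | ⟨j, b, h1, h2⟩)
    · right
      obtain ⟨P, hP, hP2⟩ := key 0 (by omega) (by omega)
      refine ⟨gp hn 0, hne _, ?_⟩
      rw [hP, not_not]
      rcases hP2 with ⟨p, rfl, h3⟩ | ⟨p, rfl, h3, h4⟩ | ⟨p, q, j, b, rfl, h3, h4⟩
      · omega
      · exact h2
      · omega
    · right
      obtain ⟨P, hP, hP2⟩ := key (j + 1) (by omega) (by omega)
      refine ⟨gp hn (j + 1), hne _, ?_⟩
      rw [hP, not_not]
      rcases hP2 with ⟨p, rfl, h3⟩ | ⟨p, rfl, h3, h4⟩ | ⟨p, q, j', b', rfl, h3, h4⟩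
      · omega
      · omega
      · obtain rfl : j = j' := by omega
        obtain rfl : b = b' := by omega
        exact h2

end path

/-- Alice wins the misère domination game on the path with `n` vertices if and only if `n` is not
congruent to 2 modulo 4 and different from 1 and 5. -/
theorem wins_path {n : ℕ} (hn : 1 ≤ n) :
    Wins (SimpleGraph.pathGraph n) [] ↔ ¬ (n % 4 = 2 ∨ n = 1 ∨ n = 5) := by
  classical
  rw [wins_nil, winsD_path hn, path_arith hn]

section cycle

variable {n : ℕ}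

theorem cyc_adj (hn : 3 ≤ n) {u v : Fin n} : (SimpleGraph.cycleGraph n).Adj u v ↔
    (u.val + 1 = v.val ∨ v.val + 1 = u.val ∨ (u.val = 0 ∧ v.val = n - 1) ∨
      (v.val = 0 ∧ u.val = n - 1)) := by
  rw [SimpleGraph.cycleGraph_adj']
  have key : ∀ a b : Fin n, ((a - b).val = 1 ↔ b.val + 1 = a.val ∨ (a.val = 0 ∧ b.val = n - 1)) := by
    intro a b
    have ha := a.isLt
    have hb := b.isLt
    by_cases hab : b ≤ a
    · have h1 := Fin.coe_sub_iff_le.2 hab
      rw [h1]
      have : b.val ≤ a.val := hab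
      omega
    · have h1 := Fin.coe_sub_iff_lt.2 (not_le.1 hab)
      rw [h1]
      have : a.val < b.val := not_le.1 hab
      omega
  rw [key, key]
  omega

/-- the embedding of the cycle -/
def gc (hn : 3 ≤ n) (v : Fin n) (x : ℤ) : Fin n :=
  ⟨if (v.val + x).toNat < n then (v.val + x).toNat else min ((v.val + x).toNat - n) (n - 1), by
    split_ifs <;> omega⟩

theorem mem_nb_cycle (hn : 3 ≤ n) {u v : Fin n} : u ∈ nb (SimpleGraph.cycleGraph n) v ↔
    (u.val = v.val ∨ v.val + 1 = u.val ∨ u.val + 1 = v.val ∨ (v.val = 0 ∧ u.val = n - 1) ∨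
      (u.val = 0 ∧ v.val = n - 1)) := by
  rw [mem_nb, Dominates, cyc_adj hn, Fin.ext_iff]

theorem core_cycle (hn : 3 ≤ n) (v : Fin n) :
    Core (SimpleGraph.cycleGraph n) (gc hn v) 1 (n - 1) (∅ ∪ nb (SimpleGraph.cycleGraph n) v)
      [(2, n - 3)] := by
  have hv := v.isLt
  have hU : ∀ y, InU [((2 : ℤ), n - 3)] y ↔ 2 ≤ y ∧ y < (n : ℤ) - 1 := by
    intro y
    simp only [InU, List.mem_singleton, exists_eq_left]
    omega
  have hgv : ∀ x : ℤ, 0 ≤ x → x ≤ n - 1 → ((gc hn v x).val : ℤ) =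
      if v.val + x < n then v.val + x else v.val + x - n := by
    intro x h1 h2
    simp only [gc]
    split_ifs <;> omega
  have hex : ∀ u : Fin n, ∃ x : ℤ, 0 ≤ x ∧ x ≤ n - 1 ∧ gc hn v x = u := by
    intro u
    have hu := u.isLt
    by_cases h : v.val ≤ u.val
    · refine ⟨u.val - v.val, by omega, by omega, ?_⟩
      ext
      have := hgv (u.val - v.val) (by omega) (by omega)
      split_ifs at this <;> omega
    · refine ⟨u.val - v.val + n, by omega, by omega, ?_⟩
      ext
      have := hgv (u.val - v.val + n) (by omega) (by omega)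
      split_ifs at this <;> omega
  constructor
  · intro u
    rw [Finset.empty_union, mem_nb_cycle hn]
    constructor
    · intro h
      obtain ⟨x, h1, h2, rfl⟩ := hex u
      refine ⟨x, (hU x).2 ?_, rfl⟩
      have := hgv x h1 h2
      split_ifs at this <;> omega
    · rintro ⟨y, hy, rfl⟩
      rw [hU] at hy
      have := hgv y (by omega) (by omega)
      split_ifs at this <;> omega
  · intro x y h1 h2 h3
    rw [hU] at h3
    rw [mem_nb_cycle hn]
    have e1 := hgv x (by omega) (by omega)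
    have e2 := hgv y (by omega) (by omega)
    split_ifs at e1 e2 <;> omega
  · intro u y hy hu
    obtain ⟨x, h1, h2, rfl⟩ := hex u
    refine ⟨x, ?_, h2, rfl⟩
    by_contra hc
    have hx : x = 0 := by omega
    subst hx
    rw [hU] at hy
    rw [mem_nb_cycle hn] at hu
    have e1 := hgv 0 (by omega) (by omega)
    have e2 := hgv y (by omega) (by omega)
    split_ifs at e1 e2 <;> omega
  · simp
  · intro I hI
    rw [List.mem_singleton] at hI
    subst hI
    simp only
    omega

end cycle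

/-- Alice wins the misère domination game on the cycle with `n` vertices if and only if `n = 4`,
or `n = 8`, or `n ≥ 13` and `n` is congruent to 1 modulo 4. -/
theorem wins_cycle {n : ℕ} (hn : 3 ≤ n) :
    Wins (SimpleGraph.cycleGraph n) [] ↔ n = 4 ∨ n = 8 ∨ (13 ≤ n ∧ n % 4 = 1) := by
  have hne : ∀ v, ¬ nb (SimpleGraph.cycleGraph n) v ⊆ (∅ : Finset (Fin n)) := by
    intro v hv
    have := hv (mem_nb_self (G := SimpleGraph.cycleGraph n) v)
    simp at this
  have key : ∀ v, (WinsD (SimpleGraph.cycleGraph n) (∅ ∪ nb (SimpleGraph.cycleGraph n) v) ↔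
      ¬ Pos {n - 3}) := by
    intro v
    refine wins_iff _ rfl (core_cycle hn v) ?_
    intro I hI
    rw [List.mem_singleton] at hI
    subst hI
    simp
  rw [wins_nil, WinsD]
  have hp := pos_single (n - 3)
  constructor
  · rintro (h | ⟨v, _, hw⟩)
    · exact absurd (h ⟨0, by omega⟩) (hne _)
    · rw [key, not_not, hp] at hw
      omega
  · intro h
    right
    refine ⟨⟨0, by omega⟩, hne _, ?_⟩
    rw [key, not_not, hp]
    omega

end Pool.Agent.X247.Mis
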