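import Pool.Agent.X247.Mis.Line

/-!
# The misère domination game on unions of intervals
-/

namespace Pool.Agent.X247.Mis

variable {V : Type*} [DecidableEq V] {G : SimpleGraph V} [Fintype V] [DecidableRel G.Adj]

theorem mem_nb_self (v : V) : v ∈ nb G v := Finset.mem_insert_self _ _

theorem mem_nb_comm {u v : V} : u ∈ nb G v ↔ v ∈ nb G u := by
  unfold nb
  simp only [Finset.mem_insert, SimpleGraph.mem_neighborFinset]
  constructor
  · rintro (h | h)
    · exact Or.inl h.symm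
    · exact Or.inr h.symm
  · rintro (h | h)
    · exact Or.inl h.symm
    · exact Or.inr h.symm

/-- legal moves -/
theorem legal_iff {g : ℤ → V} {lo hi : ℤ} {D : Finset V} {W : List (ℤ × ℕ)}
    (h : Core G g lo hi D W) (v : V) : ¬ nb G v ⊆ D ↔
      ∃ x y, lo ≤ x ∧ x ≤ hi ∧ g x = v ∧ InU W y ∧ x - 1 ≤ y ∧ y ≤ x + 1 := by
  constructor
  · intro hv
    rw [Finset.not_subset] at hv
    obtain ⟨u, hu, huD⟩ := hv
    obtain ⟨y, hy, rfl⟩ := (h.und u).1 huD
    obtain ⟨x, h1, h2, rfl⟩ := h.cov v y hy hu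
    exact ⟨x, y, h1, h2, rfl, hy, (h.adj x y h1 h2 hy).1 hu⟩
  · rintro ⟨x, y, h1, h2, rfl, hy, h3⟩
    rw [Finset.not_subset]
    exact ⟨g y, (h.adj x y h1 h2 hy).2 h3, (h.und _).2 ⟨y, hy, rfl⟩⟩

theorem mv_of_pieces {a : ℤ} {m : ℕ} {x : ℤ} (hm : 0 < m) {P : List (ℤ × ℕ)}
    (hP : (∃ p, P = [(p, m - 1)] ∧ (x = a - 1 ∨ x = a + m ∨ m = 1)) ∨
        (∃ p, P = [(p, m - 2)] ∧ 2 ≤ m ∧ (x = a ∨ x = a + m - 1)) ∨
        (∃ p q, ∃ j b : ℕ, P = [(p, j), (q, b)] ∧ j + b + 3 = m ∧ x = a + j + 1))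
    (W1 W2 : List (ℤ × ℕ)) :
    Mv (lens (W1 ++ (a, m) :: W2)) (lens (W1 ++ P ++ W2)) := by
  rw [lens_mid]
  rcases hP with ⟨p, rfl, _⟩ | ⟨p, rfl, h2, _⟩ | ⟨p, q, j, b, rfl, h2, _⟩
  · rw [lens_mid1]
    exact mv_one hm _
  · rw [lens_mid1]
    obtain ⟨k, rfl⟩ : ∃ k, m = k + 2 := ⟨m - 2, by omega⟩
    exact Mv.two k _
  · rw [lens_mid2, ← h2]
    exact Mv.three j b _

/-- a move in the graph is a move of the heaps -/
theorem forward {g : ℤ → V} {lo hi : ℤ} {D : Finset V} {W : List (ℤ × ℕ)}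
    (h : Core G g lo hi D W) (hF : Fl lo hi W) {v : V} (hv : ¬ nb G v ⊆ D) :
    ∃ W', Core G g lo hi (D ∪ nb G v) W' ∧ Fl lo hi W' ∧ Mv (lens W) (lens W') := by
  obtain ⟨x, y, h1, h2, rfl, ⟨I, hI, hy⟩, h3⟩ := (legal_iff h v).1 hv
  obtain ⟨W1, W2, rfl⟩ := List.append_of_mem hI
  obtain ⟨a, m⟩ := I
  simp only at hy
  have hb := h.bd (a, m) hI
  simp only at hb
  obtain ⟨P, p1, p2, p3, p4, p5⟩ := pieces (a := a) (m := m) (lo := lo) (hi := hi) (x := x)
    (by omega) h1 h2 (by omega) (by omega) hb.1 hb.2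
  exact ⟨W1 ++ P ++ W2, h.update h1 h2 (by simp only; omega) (by simp only; omega) p1 p2 p3,
    hF.update p4, mv_of_pieces (by omega) p5 W1 W2⟩

/-- a move of the heaps is a move in the graph -/
theorem backward {g : ℤ → V} {lo hi : ℤ} {D : Finset V} {W : List (ℤ × ℕ)}
    (h : Core G g lo hi D W) (hF : Fl lo hi W) {Y : Multiset ℕ} (hY : Mv (lens W) Y) :
    ∃ v, ¬ nb G v ⊆ D ∧ ∃ W', Core G g lo hi (D ∪ nb G v) W' ∧ Fl lo hi W' ∧ lens W' = Y := by
  have key : ∀ (m : ℕ) (R : Multiset ℕ), lens W = m ::ₘ R → ∃ (W1 W2 : List (ℤ × ℕ)) (a : ℤ),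
      W = W1 ++ (a, m) :: W2 ∧ R = lens (W1 ++ W2) := by
    intro m R hR
    have hm : m ∈ lens W := by rw [hR]; exact Multiset.mem_cons_self _ _
    unfold lens at hm
    rw [Multiset.mem_coe, List.mem_map] at hm
    obtain ⟨⟨a, m'⟩, hI, hm'⟩ := hm
    simp only at hm'
    subst hm'
    obtain ⟨W1, W2, rfl⟩ := List.append_of_mem hI
    refine ⟨W1, W2, a, rfl, ?_⟩
    rw [lens_mid] at hR
    exact ((Multiset.cons_inj_right _).1 hR).symm
  generalize hL : lens W = L at hY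
  -- the general step
  have step : ∀ (m : ℕ) (R : Multiset ℕ) (hm : 0 < m) (hW : lens W = m ::ₘ R) (Y : Multiset ℕ)
      (ch : ∀ a : ℤ, lo ≤ a → a + m ≤ hi + 1 → (lo < a ∨ a + m ≤ hi) → ∃ x : ℤ, lo ≤ x ∧ x ≤ hi ∧
        a - 1 ≤ x ∧ x ≤ a + m ∧ ∀ P : List (ℤ × ℕ),
        ((∃ p, P = [(p, m - 1)] ∧ (x = a - 1 ∨ x = a + m ∨ m = 1)) ∨
        (∃ p, P = [(p, m - 2)] ∧ 2 ≤ m ∧ (x = a ∨ x = a + m - 1)) ∨
        (∃ p q, ∃ j b : ℕ, P = [(p, j), (q, b)] ∧ j + b + 3 = m ∧ x = a + j + 1)) →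
        lens P + R = Y),
      ∃ v, ¬ nb G v ⊆ D ∧ ∃ W', Core G g lo hi (D ∪ nb G v) W' ∧ Fl lo hi W' ∧ lens W' = Y := by
    intro m R hm hW Y ch
    obtain ⟨W1, W2, a, rfl, rfl⟩ := key m R hW
    have hI : (a, m) ∈ W1 ++ (a, m) :: W2 := by simp
    have hb := h.bd (a, m) hI
    have hf := hF (a, m) hI
    simp only at hb hf
    obtain ⟨x, x1, x2, x3, x4, x5⟩ := ch a hb.1 hb.2 hf
    obtain ⟨P, p1, p2, p3, p4, p5⟩ := pieces (a := a) (m := m) (lo := lo) (hi := hi) (x := x)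
      hm x1 x2 x3 x4 hb.1 hb.2
    refine ⟨g x, ?_, W1 ++ P ++ W2, h.update x1 x2 x3 x4 p1 p2 p3, hF.update p4, ?_⟩
    · rw [legal_iff h]
      by_cases hx : x = a - 1
      · exact ⟨x, a, x1, x2, rfl, ⟨(a, m), hI, by simp only; omega⟩, by omega, by omega⟩
      · by_cases hx' : x = a + m
        · exact ⟨x, a + m - 1, x1, x2, rfl, ⟨(a, m), hI, by simp only; omega⟩, by omega, by omega⟩
        · exact ⟨x, x, x1, x2, rfl, ⟨(a, m), hI, by simp only; omega⟩, by omega, by omega⟩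
    · rw [← x5 P p5, lens_append, lens_append, lens_append]
      abel
  cases hY with
  | one k R =>
    refine step (k + 1) R (by omega) hL _ fun a b1 b2 b3 => ?_
    rcases b3 with b3 | b3
    · refine ⟨a - 1, by omega, by omega, by omega, by omega, ?_⟩
      rintro P (⟨p, rfl, _⟩ | ⟨p, rfl, h2, h4⟩ | ⟨p, q, j, b, rfl, h2, h4⟩)
      · rw [lens_cons]
        simp [lens]
      · omega
      · omega
    · refine ⟨a + (k + 1 : ℕ), by omega, by omega, by omega, by omega, ?_⟩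
      rintro P (⟨p, rfl, _⟩ | ⟨p, rfl, h2, h4⟩ | ⟨p, q, j, b, rfl, h2, h4⟩)
      · rw [lens_cons]
        simp [lens]
      · omega
      · omega
  | two k R =>
    refine step (k + 2) R (by omega) hL _ fun a b1 b2 b3 => ?_
    refine ⟨a, by omega, by omega, by omega, by omega, ?_⟩
    rintro P (⟨p, rfl, h4⟩ | ⟨p, rfl, h2, h4⟩ | ⟨p, q, j, b, rfl, h2, h4⟩)
    · omega
    · rw [lens_cons]
      simp [lens]
    · omega
  | three c d R =>
    refine step (c + d + 3) R (by omega) hL _ fun a b1 b2 b3 => ?_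
    refine ⟨a + c + 1, by omega, by omega, by omega, by omega, ?_⟩
    rintro P (⟨p, rfl, h4⟩ | ⟨p, rfl, h2, h4⟩ | ⟨p, q, j, b, rfl, h2, h4⟩)
    · omega
    · omega
    · obtain rfl : j = c := by omega
      obtain rfl : b = d := by omega
      rw [lens_cons, lens_cons]
      simp [lens]

theorem card_lt {D : Finset V} {v : V} (hv : ¬ nb G v ⊆ D) :
    (Finset.univ \ (D ∪ nb G v)).card < (Finset.univ \ D).card := by
  refine Finset.card_lt_card ?_
  rw [Finset.ssubset_iff_subset_ne]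
  refine ⟨fun x hx => ?_, fun heq => hv fun x hx => ?_⟩
  · simp only [Finset.mem_sdiff, Finset.mem_univ, true_and, Finset.mem_union, not_or] at hx ⊢
    exact hx.1
  · by_contra hc
    have : x ∈ Finset.univ \ D := by simp [hc]
    rw [← heq] at this
    simp only [Finset.mem_sdiff, Finset.mem_univ, true_and, Finset.mem_union, not_or] at this
    exact this.2 hx

/-- the outcome of a position that consists of intervals -/
theorem wins_iff {g : ℤ → V} {lo hi : ℤ} : ∀ (N : ℕ) {D : Finset V} {W : List (ℤ × ℕ)},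
    (Finset.univ \ D).card = N → Core G g lo hi D W → Fl lo hi W →
    (WinsD G D ↔ ¬ Pos (lens W)) := by
  intro N
  induction N using Nat.strong_induction_on with
  | _ N ih =>
    intro D W hN h hF
    rw [WinsD]
    constructor
    · rintro (hall | ⟨v, hv, hw⟩) hpos
      · obtain ⟨m, hm, hm0⟩ := ne_zero_of_pos hpos
        unfold lens at hm
        rw [Multiset.mem_coe, List.mem_map] at hm
        obtain ⟨⟨a, m'⟩, hI, rfl⟩ := hm
        simp only at hm0
        have hU : InU W a := ⟨(a, m'), hI, by simp only; omega⟩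
        have hD : g a ∉ D := (h.und _).2 ⟨a, hU, rfl⟩
        exact hD (hall (g a) (mem_nb_self _))
      · obtain ⟨W', h1, h2, h3⟩ := forward h hF hv
        have := ih _ (by rw [← hN]; exact card_lt hv) rfl h1 h2
        rw [this, not_not] at hw
        exact not_pos_of_mv hpos h3 hw
    · intro hpos
      by_cases h0 : ∃ m ∈ lens W, m ≠ 0
      · obtain ⟨Y, hY, hYpos⟩ := exists_mv_pos hpos h0
        obtain ⟨v, hv, W', h1, h2, rfl⟩ := backward h hF hY
        refine Or.inr ⟨v, hv, ?_⟩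
        rw [ih _ (by rw [← hN]; exact card_lt hv) rfl h1 h2, not_not]
        exact hYpos
      · left
        intro v
        by_contra hv
        obtain ⟨x, y, _, _, _, ⟨I, hI, hy⟩, _⟩ := (legal_iff h v).1 hv
        apply h0
        refine ⟨I.2, ?_, by omega⟩
        unfold lens
        rw [Multiset.mem_coe, List.mem_map]
        exact ⟨I, hI, rfl⟩

end Pool.Agent.X247.Mis
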